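import Pool.Agent.H26.Lib.R_pool_sql_team_seeded_3997aac3.Q5.RY.Rigid
import Pool.Agent.H46.OP.Suff

/-! **A finite list of number fields** of a class which suffices decides the conjecture over `K`,
uniformly in the variety and in the cohomology theories. -/

set_option autoImplicit false
set_option linter.unusedSectionVars false

namespace Pool.Agent.H46.HT

open NumberField Module IsDedekindDomain Polynomial Pool.Agent.W353.NF Pool.Agent.W401.Cheb
  Pool.Agent.Q5.BR Pool.Agent.Q5.VL Pool.Agent.Q5.RG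
open Pool.Agent.H46.OP (Suffices)

theorem finite_list_suff (K : Type) [Field K] [NumberField K]
    {C : ∀ (F : Type) [Field F] [NumberField F] [Algebra K F], Prop} (hC : Suffices C) :
    ∃ (ι : Type) (_ : Fintype ι) (Y : ι → Ext K) (a : ι → ℤ), (∀ j, C (Y j).F) ∧
      (∀ σ : GK K, ∑ j, a j * (fixn K (Y j).F σ : ℤ) = 1) ∧
      ∀ (n : ℕ) (X : Set (MvPolynomial (Fin n) (𝓞 K))) (d i N : ℕ) (_ : i ≤ 2 * d) (m : ℤ)
        (Ω : Set ℂ) (_ : IsDom Ω (m : ℂ))
        (_ : ∀ (F : Type) [Field F] [NumberField F] [Algebra K F], ∃ B, Sys X d i N m F B)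
        (M : Datum ℚ ℝ (GK K)) (_ : GoodM M),
        (∀ j, ConjQ X d i N m M Ω (Y j).F) → ConjQ X d i N m M Ω K := by
  classical
  obtain ⟨ι, _, Y, a, h1, h3⟩ := hC K
  have h1' : ∀ j, C (Y j).F := fun j => by
    have : IsScalarTower K K (Y j).F := IsScalarTower.of_algebraMap_eq fun x => rfl
    exact h1 j
  obtain ⟨N', hfd, hnor, hN'⟩ := exists_N (K := K) (fun o : Option ι => match o with
    | none => Ext.mk K
    | some j => Y j)
  have hnf : NumberField N' := NumberField.of_module_finite K N'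
  obtain ⟨Z, hZ⟩ := hC.above N'
  let _ : Algebra K Z.F := ((algebraMap N' Z.F).comp (algebraMap K N')).toAlgebra
  have htow : IsScalarTower K N' Z.F := IsScalarTower.of_algebraMap_eq fun x => rfl
  let Y' : Option ι → Ext K := fun o => o.elim (Ext.mk Z.F) Y
  refine ⟨Option ι, inferInstance, Y', fun o => o.elim 0 a, ?_, ?_, ?_⟩
  · rintro (_ | j)
    · exact hZ
    · exact h1' j
  · intro σ
    rw [Fintype.sum_option, ← h3 σ]
    change (0 : ℤ) * _ + _ = _
    rw [zero_mul, zero_add]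
    rfl
  · intro n X d i N hi m Ω hΩ hsys M hM h
    have hZ : ConjQ X d i N m M Ω Z.F := h none
    have hY : ∀ j, ConjQ X d i N m M Ω (Y j).F := fun j => h (some j)
    have hreg : ∃ c, Reg M N' c := Pool.Agent.Q5.RY.reg_sub_any hM (F' := Z.F) hZ.1
    have hregK : ∃ c, Reg M K c := Pool.Agent.Q5.RY.reg_sub_any hM (F' := N') hreg
    obtain ⟨c₀, hc₀⟩ := hreg
    refine ⟨hregK, fun B hB => ?_⟩
    have key : PowL m M Ω K B (1 * 1) := powL_step hi hΩ hM hsys K (ι := ι) (Y := Y) h3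
      (N' := N') (hN' none) (fun j => hN' (some j)) hc₀ (fun j => (hY j).2) B hB
    rwa [one_mul] at key

/-- all extensions -/
theorem conj_all_suff {K : Type} [Field K] [NumberField K]
    {C : ∀ (F : Type) [Field F] [NumberField F] [Algebra K F], Prop} (hC : Suffices C)
    {n : ℕ} {X : Set (MvPolynomial (Fin n) (𝓞 K))} {d i N : ℕ} (hi : i ≤ 2 * d) {m : ℤ}
    {Ω : Set ℂ} (hΩ : IsDom Ω (m : ℂ))
    (hsys : ∀ (F : Type) [Field F] [NumberField F] [Algebra K F], ∃ B, Sys X d i N m F B)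
    {M : Datum ℚ ℝ (GK K)} (hG : GoodM M)
    (h : ∀ (F : Type) [Field F] [NumberField F] [Algebra K F], C F → ConjQ X d i N m M Ω F)
    (F : Type) [Field F] [NumberField F] [Algebra K F] : ConjQ X d i N m M Ω F := by
  refine conjQ_of_law (hC.law (lawQ_isLaw hi hΩ hG hsys) ?_ F)
  intro F' _ _ _ hr
  refine law_of_conjQ (h F' hr) fun F'' _ _ _ _ _ => ?_
  obtain ⟨Z, hZ⟩ := hC.above F''
  let _ : Algebra K Z.F := ((algebraMap F'' Z.F).comp (algebraMap K F'')).toAlgebra
  have : IsScalarTower K F'' Z.F := IsScalarTower.of_algebraMap_eq fun x => rfl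
  exact Pool.Agent.Q5.RY.reg_sub_any hG (F' := Z.F) (h Z.F hZ).1

end Pool.Agent.H46.HT
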