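import Pool.Agent.H39.Ht.Law
import Pool.Agent.H46.OP.Suff

/-! The conjecture on heights and central values over all extensions, from a class of fields which
suffices. -/

set_option autoImplicit false
set_option linter.unusedSectionVars false

namespace Pool.Agent.H46.HT

open Module NumberField IsDedekindDomain Polynomial Pool.Agent.W353.NF Pool.Agent.W401.Cheb
open Pool.Agent.Q5.BR Pool.Agent.Q5.RG Pool.Agent.Q5.VL
open Pool.Agent.H39.Ht
open Pool.Agent.H46.OP (Suffices)
open Pool.Agent.W353.EF (LFun)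
open scoped Classical

section
variable {K : Type} [Field K] [NumberField K]

/-- finite dimensions over all extensions -/
theorem fin_all_suff {A : GVec ℚ (GK K)}
    {C : ∀ (F : Type) [Field F] [NumberField F] [Algebra K F], Prop} (hC : Suffices C)
    (h : ∀ (F : Type) [Field F] [NumberField F] [Algebra K F], C F →
      ∃ i : F →ₐ[K] AlgebraicClosure K, FiniteDimensional ℚ (inv A.act (stabE i)))
    (F : Type) [Field F] [NumberField F] [Algebra K F] (i : F →ₐ[K] AlgebraicClosure K) :
    FiniteDimensional ℚ (inv A.act (stabE i)) := by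
  obtain ⟨Z, hZ⟩ := hC.above F
  let _ : Algebra K Z.F := ((algebraMap F Z.F).comp (algebraMap K F)).toAlgebra
  have : IsScalarTower K F Z.F := IsScalarTower.of_algebraMap_eq fun x => rfl
  obtain ⟨i', h'⟩ := h Z.F hZ
  exact fin_sub i i' h'

end

section
variable {K : Type} [Field K] [NumberField K] {n : ℕ} {X : Set (MvPolynomial (Fin n) (𝓞 K))}
  {d i N : ℕ} {m : ℤ} {Ω : Set ℂ}
  {C : ∀ (F : Type) [Field F] [NumberField F] [Algebra K F], Prop}

theorem rank_all_suff (hC : Suffices C) (hi : i ≤ 2 * d) (hΩ : IsDom Ω (m : ℂ))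
    (hm : (i : ℝ) / 2 < m) {V : GVec ℚ (GK K)}
    (h : ∀ (F : Type) [Field F] [NumberField F] [Algebra K F], C F →
      RankConj X d i N m Ω V F)
    (F : Type) [Field F] [NumberField F] [Algebra K F] : RankConj X d i N m Ω V F := by
  have hV : ∀ (F : Type) [Field F] [NumberField F] [Algebra K F]
      (i : F →ₐ[K] AlgebraicClosure K), FiniteDimensional ℚ (inv V.act (stabE i)) := by
    intro F _ _ _ i
    refine fin_all_suff hC (fun F' _ _ _ hr => ?_) F i
    obtain ⟨e, p, a, ha, -⟩ := h F' hr
    obtain ⟨a', -⟩ := GVec.exists_basis ha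
    exact ⟨e, Module.Finite.of_basis a'⟩
  have hV' : ∀ N : IntermediateField K (AlgebraicClosure K), FiniteDimensional K N →
      FiniteDimensional ℚ (fixV V.act N.val) := by
    intro N _
    have : NumberField N := NumberField.of_module_finite K N
    rw [fixV_eq]
    exact hV N N.val
  have hlaw := law_cen (X := X) (d := d) (i := i) (N := N) (ρ := V.act) hi hΩ (by
    have : ((m : ℂ)).re = (m : ℝ) := Complex.intCast_re m
    rw [this]
    exact hm) 1 hV'
  exact (rankConj_iff hV F).2 (hC.law hlaw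
    (fun F' _ _ _ hr => (rankConj_iff hV F').1 (h F' hr)) F)

theorem height_all_suff (hC : Suffices C) (hi : i ≤ 2 * d) (hΩ : IsDom Ω (m : ℂ))
    (hsys : ∀ (F : Type) [Field F] [NumberField F] [Algebra K F], ∃ B, Sys X d i N m F B)
    {M : Heights (GK K)} (hM : M.Good)
    (h : ∀ (F : Type) [Field F] [NumberField F] [Algebra K F], C F →
      HeightConj X d i N m Ω M F)
    (F : Type) [Field F] [NumberField F] [Algebra K F] : HeightConj X d i N m Ω M F := by
  have hW : ∀ (F : Type) [Field F] [NumberField F] [Algebra K F]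
      (i : F →ₐ[K] AlgebraicClosure K), FiniteDimensional ℚ (inv M.W.act (stabE i)) := by
    intro F _ _ _ i
    refine fin_all_suff hC (fun F' _ _ _ hr => ?_) F i
    obtain ⟨⟨p, c, e, -, q, a, a', f, b, P, ha, ha', -⟩, -⟩ := h F' hr
    obtain ⟨a'', -⟩ := GVec.exists_basis ha'
    exact ⟨e, Module.Finite.of_basis a''⟩
  have hS := sp_good hM hW
  have hG := Spaces.goodM hS
  refine (heightConj_iff hM hW F).2 ((Spaces.conj_iff hS.comp.onto).1 (conjQ_of_law
    (hC.law (lawQ_isLaw hi hΩ hG hsys) ?_ F)))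
  intro F' _ _ _ hr
  refine law_of_conjQ ((Spaces.conj_iff hS.comp.onto).2 ((heightConj_iff hM hW F').1 (h F' hr)))
    fun F'' _ _ _ _ _ => ?_
  obtain ⟨Z, hZ⟩ := hC.above F''
  let _ : Algebra K Z.F := ((algebraMap F'' Z.F).comp (algebraMap K F'')).toAlgebra
  have : IsScalarTower K F'' Z.F := IsScalarTower.of_algebraMap_eq fun x => rfl
  exact Pool.Agent.Q5.RY.reg_sub_any hG (F' := Z.F)
    ((Spaces.ex_iff hS.comp.onto).1 ((heightConj_iff hM hW Z.F).1 (h Z.F hZ)).1)

end

end Pool.Agent.H46.HT
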